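import Mathlib

/-! Filtrations of group algebras in characteristic `p`. -/

set_option autoImplicit false

namespace Pool.Agent.H300.JN

variable {G : Type} [Group G] {p : ℕ}

/-- the group algebra -/
abbrev R (p : ℕ) (G : Type) : Type := MonoidAlgebra (ZMod p) G

/-- the group element -/
noncomputable def o (p : ℕ) {G : Type} [Group G] (g : G) : R p G := MonoidAlgebra.of (ZMod p) G g

theorem o_mul (a b : G) : o p (a * b) = o p a * o p b := map_mul _ _ _
theorem o_one : o p (1 : G) = 1 := map_one _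
theorem o_pow (a : G) (n : ℕ) : o p (a ^ n) = o p a ^ n := map_pow _ _ _

/-- a filtration of the group -/
structure Fil (G : Type) [Group G] (p m : ℕ) where
  H : ℕ → Subgroup G
  one : H 1 = ⊤
  anti : Antitone H
  comm : ∀ i j, ∀ x ∈ H i, ∀ y ∈ H j, x * y * x⁻¹ * y⁻¹ ∈ H (i + j)
  pow : ∀ i, ∀ x ∈ H i, x ^ p ∈ H (p * i)
  fin : H (m + 1) = ⊥

variable {m : ℕ} (Φ : Fil G p m)

/-- products of weight `r` -/
inductive Mon (P : Subgroup G) : ℕ → R p G → Prop
  | one (g : G) (hg : g ∈ P) : Mon P 0 (o p g)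
  | mul (r i : ℕ) (a : R p G) (h : G) (hP : h ∈ P) (hi : h ∈ Φ.H i) (ha : Mon P r a) :
      Mon P (r + i) ((o p h - 1) * a)

/-- the span of the products of weight at least `r` -/
noncomputable def E (P : Subgroup G) (r : ℕ) : Submodule (ZMod p) (R p G) :=
  Submodule.span _ {a | ∃ s, r ≤ s ∧ Mon Φ P s a}

variable {Φ} {P : Subgroup G}

theorem Mon.mem {s r : ℕ} {a : R p G} (h : Mon Φ P s a) (hr : r ≤ s) : a ∈ E Φ P r :=
  Submodule.subset_span ⟨s, hr, h⟩

theorem E_anti {r s : ℕ} (h : r ≤ s) : E Φ P s ≤ E Φ P r :=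
  Submodule.span_mono fun _ ⟨t, ht, hm⟩ => ⟨t, h.trans ht, hm⟩

theorem E_left {r i : ℕ} {a : R p G} (ha : a ∈ E Φ P r) {h : G} (hP : h ∈ P) (hi : h ∈ Φ.H i) :
    (o p h - 1) * a ∈ E Φ P (r + i) := by
  induction ha using Submodule.span_induction with
  | mem x hx =>
    obtain ⟨s, hs, hm⟩ := hx
    exact (Mon.mul s i x h hP hi hm).mem (by omega)
  | zero => rw [mul_zero]; exact zero_mem _
  | add x y _ _ hx hy => rw [mul_add]; exact add_mem hx hy
  | smul c x _ hx => rw [mul_smul_comm]; exact Submodule.smul_mem _ _ hx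

theorem E_left' {r : ℕ} {a : R p G} (ha : a ∈ E Φ P r) {h : G} (hP : h ∈ P) :
    o p h * a ∈ E Φ P r := by
  have h1 : h ∈ Φ.H 1 := by rw [Φ.one]; trivial
  have h2 := E_anti (Nat.le_add_right r 1) (E_left ha hP h1)
  have h3 : o p h * a = (o p h - 1) * a + a := by rw [sub_mul, one_mul, sub_add_cancel]
  rw [h3]
  exact add_mem h2 ha

theorem E_mul {r s : ℕ} {a b : R p G} (ha : a ∈ E Φ P r) (hb : b ∈ E Φ P s) :
    a * b ∈ E Φ P (r + s) := by
  induction ha using Submodule.span_induction with
  | mem x hx =>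
    obtain ⟨u, hu, hm⟩ := hx
    refine E_anti (Nat.add_le_add_right hu s) ?_
    clear hu
    induction hm with
    | one g hg => rw [Nat.zero_add]; exact E_left' hb hg
    | mul r' i a' h hP hi _ ih =>
      rw [mul_assoc, Nat.add_right_comm]
      exact E_left ih hP hi
  | zero => rw [zero_mul]; exact zero_mem _
  | add x y _ _ hx hy => rw [add_mul]; exact add_mem hx hy
  | smul c x _ hx => rw [smul_mul_assoc]; exact Submodule.smul_mem _ _ hx

/-- conjugation -/
noncomputable def cj (p : ℕ) {G : Type} [Group G] (t : G) (a : R p G) : R p G := o p t * a * o p t⁻¹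

theorem cj_mul (t : G) (a b : R p G) : cj p t (a * b) = cj p t a * cj p t b := by
  unfold cj
  have : o p t⁻¹ * o p t = 1 := by rw [← o_mul, inv_mul_cancel, o_one]
  calc o p t * (a * b) * o p t⁻¹ = o p t * a * 1 * b * o p t⁻¹ := by rw [mul_one]; simp only [mul_assoc]
    _ = o p t * a * (o p t⁻¹ * o p t) * b * o p t⁻¹ := by rw [this]
    _ = _ := by simp only [mul_assoc]

theorem cj_o (t g : G) : cj p t (o p g) = o p (t * g * t⁻¹) := by
  unfold cj
  rw [o_mul, o_mul]

theorem cj_o1 (t g : G) : cj p t (o p g - 1) = o p (t * g * t⁻¹) - 1 := by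
  have : cj p t (o p g - 1) = cj p t (o p g) - cj p t (o p 1) := by
    unfold cj; rw [o_one, mul_sub, sub_mul]
  rw [this, cj_o, cj_o, mul_one, mul_inv_cancel, o_one]

theorem E_cj {r w : ℕ} {t : G} (ht : t ∈ Φ.H w) (hn : ∀ y ∈ P, t * y * t⁻¹ ∈ P) {a : R p G}
    (ha : a ∈ E Φ P r) : cj p t a - a ∈ E Φ P (r + w) := by
  induction ha using Submodule.span_induction with
  | mem x hx =>
    obtain ⟨u, hu, hm⟩ := hx
    refine E_anti (Nat.add_le_add_right hu w) ?_
    clear hu
    have hcm : ∀ g ∈ P, t * g * t⁻¹ * g⁻¹ ∈ P := fun g hg => P.mul_mem (hn g hg) (P.inv_mem hg)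
    induction hm with
    | one g hg =>
      have h1 : g ∈ Φ.H 1 := by rw [Φ.one]; trivial
      have h2 := Φ.comm w 1 t ht g h1
      have h3 : cj p t (o p g) - o p g = (o p (t * g * t⁻¹ * g⁻¹) - 1) * o p g := by
        rw [cj_o, sub_mul, ← o_mul, one_mul, inv_mul_cancel_right]
      rw [h3]
      have h4 := E_left (r := 0) ((Mon.one (Φ := Φ) g hg).mem le_rfl) (hcm g hg) h2
      exact E_anti (by omega) h4
    | mul r' i a' h hP hi hm' ih =>
      have h2 := Φ.comm w i t ht h hi
      have h3 : cj p t ((o p h - 1) * a') - (o p h - 1) * a' =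
          (o p (t * h * t⁻¹ * h⁻¹) - 1) * (o p h * cj p t a') + (o p h - 1) * (cj p t a' - a') := by
        rw [cj_mul, cj_o1]
        have h4 : (o p (t * h * t⁻¹ * h⁻¹) - 1) * (o p h * cj p t a') =
            (o p (t * h * t⁻¹) - o p h) * cj p t a' := by
          rw [← mul_assoc, sub_mul, ← o_mul, one_mul, inv_mul_cancel_right]
        rw [h4]
        noncomm_ring
      rw [h3]
      have h5 : cj p t a' ∈ E Φ P r' := by
        have h6 := add_mem (E_anti (Nat.le_add_right r' w) ih) (hm'.mem (le_refl r'))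
        rwa [sub_add_cancel] at h6
      refine add_mem ?_ ?_
      · exact E_anti (by omega) (E_left (E_left' h5 hP) (hcm h hP) h2)
      · exact E_anti (by omega) (E_left ih hP hi)
  | zero =>
    have : cj p t (0 : R p G) = 0 := by unfold cj; rw [mul_zero, zero_mul]
    rw [this, sub_zero]; exact zero_mem _
  | add x y _ _ hx hy =>
    have : cj p t (x + y) - (x + y) = (cj p t x - x) + (cj p t y - y) := by
      unfold cj; rw [mul_add, add_mul]; abel
    rw [this]; exact add_mem hx hy
  | smul c x _ hx =>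
    have : cj p t (c • x) - c • x = c • (cj p t x - x) := by
      unfold cj; rw [mul_smul_comm, smul_mul_assoc, smul_sub]
    rw [this]; exact Submodule.smul_mem _ _ hx

/-- the augmentation -/
noncomputable def aug (p : ℕ) (G : Type) [Group G] : R p G →ₐ[ZMod p] ZMod p :=
  MonoidAlgebra.lift (ZMod p) (ZMod p) G 1

theorem aug_o (g : G) : aug p G (o p g) = 1 := by
  unfold aug o
  rw [MonoidAlgebra.lift_of]
  rfl

theorem E_aug {r : ℕ} (hr : 1 ≤ r) {a : R p G} (ha : a ∈ E Φ P r) : aug p G a = 0 := by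
  induction ha using Submodule.span_induction with
  | mem x hx =>
    obtain ⟨u, hu, hm⟩ := hx
    cases hm with
    | one g hg => omega
    | mul r' i a' h hP hi hm' => rw [map_mul, map_sub, aug_o, map_one, sub_self, zero_mul]
  | zero => exact map_zero _
  | add x y _ _ hx hy => rw [map_add, hx, hy, add_zero]
  | smul c x _ hx => rw [map_smul, hx, smul_zero]

/-- elements supported in a set -/
noncomputable def Sup (p : ℕ) {G : Type} [Group G] (A : Set G) : Submodule (ZMod p) (R p G) :=
  { carrier := {a | ∀ g, g ∉ A → a.coeff g = 0}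
    add_mem' := fun {a b} ha hb g hg => by
      change a.coeff g + b.coeff g = 0
      rw [ha g hg, hb g hg, add_zero]
    zero_mem' := fun g _ => rfl
    smul_mem' := fun c a ha g hg => by
      change c • a.coeff g = 0
      rw [ha g hg, smul_zero] }

theorem mem_Sup {A : Set G} {a : R p G} : a ∈ Sup p A ↔ ∀ g, g ∉ A → a.coeff g = 0 := Iff.rfl

theorem o_apply_mul (h : G) (a : R p G) (g : G) : (o p h * a).coeff g = a.coeff (h⁻¹ * g) := by
  unfold o
  rw [MonoidAlgebra.of_apply]
  have := MonoidAlgebra.coeff_single_mul_eq_mul_coeff (x := a) (r := (1 : ZMod p)) (m := h) (m₁ := g)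
    (h⁻¹ * g) (fun m' _ => by constructor <;> intro h' <;> [rw [← h', inv_mul_cancel_left]; rw [h', mul_inv_cancel_left]])
  rw [this, one_mul]

theorem mul_o_apply (h : G) (a : R p G) (g : G) : (a * o p h).coeff g = a.coeff (g * h⁻¹) := by
  unfold o
  rw [MonoidAlgebra.of_apply]
  have := MonoidAlgebra.coeff_mul_single_eq_coeff_mul (x := a) (r := (1 : ZMod p)) (m := h) (m₁ := g)
    (g * h⁻¹) (fun m' _ => by constructor <;> intro h' <;> [rw [← h', mul_inv_cancel_right]; rw [h', inv_mul_cancel_right]])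
  rw [this, mul_one]

theorem o_apply_ne {h g : G} (hg : h ≠ g) : (o p h).coeff g = 0 := by
  classical
  unfold o
  rw [MonoidAlgebra.of_apply, MonoidAlgebra.coeff_single, Finsupp.single_apply, if_neg hg]

theorem E_sup {r : ℕ} {a : R p G} (ha : a ∈ E Φ P r) : a ∈ Sup p (P : Set G) := by
  induction ha using Submodule.span_induction with
  | mem x hx =>
    obtain ⟨u, hu, hm⟩ := hx
    clear hu
    induction hm with
    | one g hg =>
      rw [mem_Sup]
      intro x hx
      exact o_apply_ne (fun h => hx (h ▸ hg))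
    | mul r' i a' h hP hi hm' ih =>
      rw [mem_Sup] at ih ⊢
      intro x hx
      rw [sub_mul, one_mul]
      have h0 : (o p h * a' - a').coeff x = (o p h * a').coeff x - a'.coeff x := rfl
      rw [h0, o_apply_mul, ih x hx, ih (h⁻¹ * x) fun h2 => hx (by
        have := P.mul_mem hP h2
        rwa [mul_inv_cancel_left] at this), sub_zero]
  | zero => exact zero_mem _
  | add x y _ _ hx hy => exact add_mem hx hy
  | smul c x _ hx => exact Submodule.smul_mem _ _ hx

end Pool.Agent.H300.JN
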