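import Mathlib
import Pool.Agent.H300.JN.Mon

/-! The inductive step: from a normal subgroup `N` of index `p` to `P = N⟨t⟩`. -/

set_option autoImplicit false

namespace Pool.Agent.H300.JN

variable {G : Type} [Group G] {p m : ℕ} {Φ : Fil G p m}

/-- the data of a step -/
structure St (Φ : Fil G p m) (P N : Subgroup G) (t : G) (w : ℕ) : Prop where
  le : N ≤ P
  tP : t ∈ P
  tw : t ∈ Φ.H w
  deep : ∀ x ∈ P, x ∈ Φ.H (w + 1) → x ∈ N
  nor : ∀ g ∈ P, ∀ y ∈ N, g * y * g⁻¹ ∈ N
  rep : ∀ x ∈ P, ∃ j < p, ∃ y ∈ N, x = y * t ^ j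
  tp : t ^ p ∈ N
  ind : ∀ j, 0 < j → j < p → t ^ j ∉ N

variable {P N : Subgroup G} {t : G} {w : ℕ}

/-- the elements `∑ α_j (t - 1)^j` with `α_j` of weight at least `r - j w` -/
noncomputable def F (Φ : Fil G p m) (N : Subgroup G) (t : G) (w r : ℕ) : Submodule (ZMod p) (R p G) :=
  { carrier := {a | ∃ α : ℕ → R p G, (∀ j < p, α j ∈ E Φ N (r - j * w)) ∧
      a = ∑ j ∈ Finset.range p, α j * (o p t - 1) ^ j}
    add_mem' := by
      rintro a b ⟨α, hα, rfl⟩ ⟨β, hβ, rfl⟩
      refine ⟨fun j => α j + β j, fun j hj => add_mem (hα j hj) (hβ j hj), ?_⟩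
      rw [← Finset.sum_add_distrib]
      exact Finset.sum_congr rfl fun j _ => (add_mul _ _ _).symm
    zero_mem' := ⟨fun _ => 0, fun _ _ => zero_mem _, by simp⟩
    smul_mem' := by
      rintro c a ⟨α, hα, rfl⟩
      refine ⟨fun j => c • α j, fun j hj => Submodule.smul_mem _ _ (hα j hj), ?_⟩
      rw [Finset.smul_sum]
      exact Finset.sum_congr rfl fun j _ => (smul_mul_assoc _ _ _).symm }

theorem mem_F {r : ℕ} {a : R p G} : a ∈ F Φ N t w r ↔ ∃ α : ℕ → R p G,
    (∀ j < p, α j ∈ E Φ N (r - j * w)) ∧ a = ∑ j ∈ Finset.range p, α j * (o p t - 1) ^ j := Iff.rfl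

theorem F_term {r j : ℕ} (hj : j < p) {α : R p G} (hα : α ∈ E Φ N (r - j * w)) :
    α * (o p t - 1) ^ j ∈ F Φ N t w r := by
  classical
  refine ⟨fun i => if i = j then α else 0, fun i hi => ?_, ?_⟩
  · by_cases h : i = j
    · subst h; simpa using hα
    · simp [h]
  · rw [Finset.sum_eq_single j]
    · simp
    · intro b _ hb; simp [hb]
    · intro h; exact absurd (Finset.mem_range.mpr hj) h

theorem F_anti {r s : ℕ} (h : r ≤ s) : F Φ N t w s ≤ F Φ N t w r := by
  rintro a ⟨α, hα, rfl⟩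
  exact ⟨α, fun j hj => E_anti (by omega) (hα j hj), rfl⟩

theorem F_N {r i : ℕ} {a : R p G} (ha : a ∈ F Φ N t w r) {y : G} (hy : y ∈ N) (hi : y ∈ Φ.H i) :
    (o p y - 1) * a ∈ F Φ N t w (r + i) := by
  obtain ⟨α, hα, rfl⟩ := ha
  refine ⟨fun j => (o p y - 1) * α j, fun j hj => E_anti (by omega) (E_left (hα j hj) hy hi), ?_⟩
  rw [Finset.mul_sum]
  exact Finset.sum_congr rfl fun j _ => (mul_assoc _ _ _).symm

theorem F_N' {r : ℕ} {a : R p G} (ha : a ∈ F Φ N t w r) {y : G} (hy : y ∈ N) :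
    o p y * a ∈ F Φ N t w r := by
  have h1 : y ∈ Φ.H 1 := by rw [Φ.one]; trivial
  have h2 := F_anti (Nat.le_add_right r 1) (F_N ha hy h1)
  have h3 : o p y * a = (o p y - 1) * a + a := by rw [sub_mul, one_mul, sub_add_cancel]
  rw [h3]
  exact add_mem h2 ha

theorem F_t [Fact p.Prime] (hS : St Φ P N t w) {r : ℕ} {a : R p G} (ha : a ∈ F Φ N t w r) :
    (o p t - 1) * a ∈ F Φ N t w (r + w) := by
  obtain ⟨α, hα, rfl⟩ := ha
  rw [Finset.mul_sum]
  refine Submodule.sum_mem _ fun j hj => ?_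
  rw [Finset.mem_range] at hj
  have hn : ∀ y ∈ N, t * y * t⁻¹ ∈ N := fun y hy => hS.nor t hS.tP y hy
  have h1 := E_cj hS.tw hn (hα j hj)
  have h2 : cj p t (α j) ∈ E Φ N (r - j * w) := by
    have h6 := add_mem (E_anti (Nat.le_add_right _ w) h1) (hα j hj)
    rwa [sub_add_cancel] at h6
  have h3 : (o p t - 1) * (α j * (o p t - 1) ^ j) =
      cj p t (α j) * (o p t - 1) ^ (j + 1) + (cj p t (α j) - α j) * (o p t - 1) ^ j := by
    have h4 : o p t * α j = cj p t (α j) * o p t := by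
      unfold cj
      rw [mul_assoc (o p t * α j), ← o_mul, inv_mul_cancel, o_one, mul_one]
    have h5 : (o p t - 1) * α j = cj p t (α j) * (o p t - 1) + (cj p t (α j) - α j) := by
      rw [sub_mul, h4, one_mul, mul_sub, mul_one]; abel
    rw [← mul_assoc, h5, add_mul, pow_succ', mul_assoc]
  rw [h3]
  refine add_mem ?_ (F_term hj (E_anti (by omega) h1))
  rcases Nat.lt_or_ge (j + 1) p with h | h
  · refine F_term h (E_anti ?_ h2)
    rw [Nat.succ_mul]; omega
  · have hjp : j + 1 = p := by omega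
    have h7 : (o p t - 1) ^ (j + 1) = o p (t ^ p) - 1 := by
      haveI : CharP (R p G) p := charP_of_injective_algebraMap (algebraMap (ZMod p) (R p G)).injective p
      rw [hjp, sub_pow_char_of_commute _ (Commute.one_right _), one_pow, o_pow]
    rw [h7]
    have h8 : (o p (t ^ p) - 1 : R p G) ∈ E Φ N (p * w) := by
      have h9 := E_left (r := 0) ((Mon.one (Φ := Φ) (P := N) 1 N.one_mem).mem le_rfl) hS.tp
        (Φ.pow w t hS.tw)
      rw [o_one, mul_one, Nat.zero_add, ] at h9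
      exact h9
    have h10 := E_mul h2 h8
    have h11 : cj p t (α j) * (o p (t ^ p) - 1) * (o p t - 1) ^ 0 ∈ F Φ N t w (r + w) := by
      refine F_term (Fact.out : p.Prime).pos (E_anti ?_ h10)
      have : p * w = j * w + w := by rw [← hjp]; ring
      omega
    rwa [pow_zero, mul_one] at h11

theorem F_t' [Fact p.Prime] (hS : St Φ P N t w) {r : ℕ} {a : R p G} (ha : a ∈ F Φ N t w r) (j : ℕ) :
    o p (t ^ j) * a ∈ F Φ N t w r ∧ (o p (t ^ j) - 1) * a ∈ F Φ N t w (r + w) := by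
  induction j with
  | zero => rw [pow_zero, o_one, one_mul, sub_self, zero_mul]; exact ⟨ha, zero_mem _⟩
  | succ j ih =>
    obtain ⟨h1, h2⟩ := ih
    have h3 := F_t hS h1
    have h4 : (o p (t ^ (j + 1)) : R p G) = o p t * o p (t ^ j) := by rw [pow_succ', o_mul]
    have h5 : (o p t - 1) * (o p (t ^ j) * a) + (o p (t ^ j) - 1) * a = (o p (t ^ (j + 1)) - 1) * a := by
      rw [h4]; noncomm_ring
    have h6 : (o p (t ^ (j + 1)) - 1) * a ∈ F Φ N t w (r + w) := by
      rw [← h5]; exact add_mem h3 h2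
    refine ⟨?_, h6⟩
    have h7 : o p (t ^ (j + 1)) * a = (o p (t ^ (j + 1)) - 1) * a + a := by
      rw [sub_mul, one_mul, sub_add_cancel]
    rw [h7]
    exact add_mem (F_anti (Nat.le_add_right r w) h6) ha

theorem F_P [Fact p.Prime] (hS : St Φ P N t w) {r i : ℕ} {a : R p G} (ha : a ∈ F Φ N t w r) {h : G}
    (hh : h ∈ P) (hi : h ∈ Φ.H i) : (o p h - 1) * a ∈ F Φ N t w (r + i) := by
  rcases Nat.lt_or_ge w i with hwi | hwi
  · exact F_N ha (hS.deep h hh (Φ.anti hwi hi)) hi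
  · obtain ⟨j, hj, y, hy, rfl⟩ := hS.rep h hh
    have hti : t ^ j ∈ Φ.H i := (Φ.H i).pow_mem (Φ.anti hwi hS.tw) j
    have hyi : y ∈ Φ.H i := by
      have := (Φ.H i).mul_mem hi ((Φ.H i).inv_mem hti)
      rwa [mul_inv_cancel_right] at this
    obtain ⟨h1, h2⟩ := F_t' hS ha j
    have h3 := F_N h1 hy hyi
    have h4 : (o p (y * t ^ j) - 1) * a = (o p y - 1) * (o p (t ^ j) * a) + (o p (t ^ j) - 1) * a := by
      rw [o_mul]; noncomm_ring
    rw [h4]
    exact add_mem h3 (F_anti (by omega) h2)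

theorem E_le_F [Fact p.Prime] (hS : St Φ P N t w) (r : ℕ) : E Φ P r ≤ F Φ N t w r := by
  refine Submodule.span_le.mpr ?_
  rintro a ⟨s, hs, hm⟩
  refine F_anti hs ?_
  clear hs
  induction hm with
  | one g hg =>
    obtain ⟨j, hj, y, hy, rfl⟩ := hS.rep g hg
    have h1 : (1 : R p G) ∈ F Φ N t w 0 := by
      have h2 : (o p (1 : G) : R p G) ∈ E Φ N (0 - 0 * w) :=
        (Mon.one (Φ := Φ) (P := N) 1 N.one_mem).mem (by omega)
      have h3 := F_term (t := t) (Fact.out : p.Prime).pos h2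
      rwa [pow_zero, mul_one, o_one] at h3
    have h4 := F_N' (F_t' hS h1 j).1 hy
    rwa [mul_one, ← o_mul] at h4
  | mul r' i a' h hP hi _ ih => exact F_P hS ih hP hi

/-- `N t^i` with `i < j` -/
def A (N : Subgroup G) (t : G) (j : ℕ) : Set G := {g | ∃ y ∈ N, ∃ i < j, g = y * t ^ i}

theorem tau_sup {γ : R p G} (hγ : γ ∈ Sup p (N : Set G)) (j : ℕ) :
    γ * (o p t - 1) ^ j - γ * o p (t ^ j) ∈ Sup p (A N t j) := by
  induction j with
  | zero => rw [pow_zero, pow_zero, o_one, sub_self]; exact zero_mem _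
  | succ j ih =>
    have h1 : γ * (o p t - 1) ^ (j + 1) - γ * o p (t ^ (j + 1)) =
        (γ * (o p t - 1) ^ j - γ * o p (t ^ j)) * o p t - (γ * (o p t - 1) ^ j - γ * o p (t ^ j)) -
          γ * o p (t ^ j) := by
      rw [pow_succ, pow_succ, o_mul]; noncomm_ring
    rw [h1]
    refine sub_mem (sub_mem ?_ ?_) ?_
    · rw [mem_Sup]
      intro g hg
      rw [mul_o_apply]
      refine (mem_Sup.mp ih) _ fun ⟨y, hy, i, hi, h2⟩ => hg ⟨y, hy, i + 1, by omega, ?_⟩
      rw [pow_succ, ← mul_assoc, ← h2, inv_mul_cancel_right]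
    · rw [mem_Sup] at ih ⊢
      intro g hg
      exact ih g fun ⟨y, hy, i, hi, h2⟩ => hg ⟨y, hy, i, by omega, h2⟩
    · rw [mem_Sup]
      intro g hg
      rw [mul_o_apply]
      refine (mem_Sup.mp hγ) _ fun h2 => hg ⟨_, h2, j, by omega, ?_⟩
      rw [inv_mul_cancel_right]

theorem uniq (hS : St Φ P N t w) (γ : ℕ → R p G) (hγ : ∀ j, γ j ∈ Sup p (N : Set G)) (q : ℕ)
    (hq : q ≤ p) (h0 : ∑ j ∈ Finset.range q, γ j * (o p t - 1) ^ j = 0) : ∀ j < q, γ j = 0 := by
  induction q with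
  | zero => intro j hj; omega
  | succ q ih =>
    have hd : ∀ j ≤ q, ∀ g ∈ A N t j, ∀ y ∈ N, g ≠ y * t ^ q := by
      rintro j hj g ⟨y', hy', i, hi, rfl⟩ y hy h
      have h1 : t ^ (q - i) ∈ N := by
        have h2 : t ^ q = t ^ (q - i) * t ^ i := by rw [← pow_add]; congr 1; omega
        rw [h2, ← mul_assoc] at h
        have h3 := mul_right_cancel h
        have h4 : t ^ (q - i) = y⁻¹ * y' := by rw [h3, inv_mul_cancel_left]
        rw [h4]
        exact N.mul_mem (N.inv_mem hy) hy'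
      exact hS.ind (q - i) (by omega) (by omega) h1
    have hq0 : γ q = 0 := by
      apply MonoidAlgebra.ext
      ext y
      by_cases hy : y ∈ N
      · have h1 : (∑ j ∈ Finset.range (q + 1), γ j * (o p t - 1) ^ j).coeff (y * t ^ q) = 0 := by
          rw [h0]; rfl
        rw [MonoidAlgebra.coeff_sum, Finsupp.finsetSum_apply, Finset.sum_range_succ,
          Finset.sum_eq_zero, zero_add] at h1
        · have h2 := tau_sup (t := t) (hγ q) q
          rw [mem_Sup] at h2
          have h3 := h2 (y * t ^ q) fun h => hd q le_rfl _ h y hy rfl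
          have h4 : (γ q * (o p t - 1) ^ q).coeff (y * t ^ q) - (γ q * o p (t ^ q)).coeff (y * t ^ q) = 0 := h3
          rw [h1, mul_o_apply, mul_inv_cancel_right, zero_sub, neg_eq_zero] at h4
          rw [h4]; rfl
        · intro j hj
          rw [Finset.mem_range] at hj
          have h2 := tau_sup (t := t) (hγ j) j
          rw [mem_Sup] at h2
          have h3 := h2 (y * t ^ q) fun h => hd j hj.le _ h y hy rfl
          have h4 : (γ j * (o p t - 1) ^ j).coeff (y * t ^ q) - (γ j * o p (t ^ j)).coeff (y * t ^ q) = 0 := h3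
          have h5 : (γ j * o p (t ^ j)).coeff (y * t ^ q) = 0 := by
            rw [mul_o_apply]
            refine (mem_Sup.mp (hγ j)) _ fun h => ?_
            refine hd (j + 1) (by omega) (y * t ^ q) ⟨_, h, j, by omega, ?_⟩ y hy rfl
            rw [inv_mul_cancel_right]
          rw [h5, sub_zero] at h4
          exact h4
      · rw [(mem_Sup.mp (hγ q)) y hy]; rfl
    intro j hj
    rcases Nat.lt_or_ge j q with h | h
    · refine ih (by omega) ?_ j h
      rw [Finset.sum_range_succ, hq0, zero_mul, add_zero] at h0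
      exact h0
    · have : j = q := by omega
      rw [this]; exact hq0

end Pool.Agent.H300.JN
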