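import Mathlib
import Pool.Agent.H300.JN.Step

/-! If `x - 1` has weight more than the length of the filtration then `x = 1`. -/

set_option autoImplicit false

namespace Pool.Agent.H300.JN

variable {G : Type} [Group G] {p m : ℕ} {Φ : Fil G p m}

/-- a normal subgroup of index `p` -/
theorem exists_step [Finite G] [hp : Fact p.Prime] (hG : IsPGroup p G) (P : Subgroup G) (hP : P ≠ ⊥) :
    ∃ (N : Subgroup G) (t : G) (w : ℕ), St Φ P N t w ∧ N < P ∧ w ≤ m := by
  classical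
  obtain ⟨k, hk⟩ := IsPGroup.iff_card.mp (hG.to_subgroup P)
  have hk0 : k ≠ 0 := by
    rintro rfl
    exact hP (Subgroup.eq_bot_of_card_eq P (by rw [hk, pow_zero]))
  obtain ⟨l, rfl⟩ : ∃ l, k = l + 1 := ⟨k - 1, by omega⟩
  obtain ⟨N₀, hN₀⟩ := Sylow.exists_subgroup_card_pow_prime (G := P) p (n := l)
    (by rw [hk]; exact pow_dvd_pow p (Nat.le_succ l))
  have hidx : N₀.index = p := by
    have h1 := N₀.card_mul_index
    rw [hN₀, hk, pow_succ] at h1
    exact Nat.eq_of_mul_eq_mul_left (pow_pos hp.out.pos l) h1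
  haveI hnor : N₀.Normal := by
    apply Subgroup.normal_of_index_eq_minFac_card
    rw [hidx, hk, hp.out.pow_minFac (Nat.succ_ne_zero l)]
  obtain ⟨N, hN⟩ : ∃ N : Subgroup G, N = N₀.map P.subtype := ⟨_, rfl⟩
  have hNm : ∀ x (hx : x ∈ P), x ∈ N ↔ (⟨x, hx⟩ : P) ∈ N₀ := by
    intro x hx
    constructor
    · intro h
      rw [hN] at h
      obtain ⟨y, hy, hyx⟩ := h
      have h1 : y = ⟨x, hx⟩ := Subtype.ext hyx
      rwa [← h1]
    · intro h
      rw [hN]
      exact ⟨⟨x, hx⟩, h, rfl⟩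
  have hNP : N ≤ P := by
    rw [hN]
    rintro _ ⟨y, -, rfl⟩
    exact y.2
  have hNlt : N < P := by
    refine lt_of_le_of_ne hNP fun h => ?_
    have h1 : N₀ = ⊤ := by
      rw [eq_top_iff]
      intro x _
      exact (hNm x.1 x.2).mp (h ▸ x.2)
    rw [h1, Subgroup.index_top] at hidx
    exact hp.out.one_lt.ne hidx
  -- the weight
  have hex : ∃ i, ∀ x ∈ P, x ∈ Φ.H i → x ∈ N := by
    refine ⟨m + 1, ?_⟩
    intro x _ hx
    rw [Φ.fin, Subgroup.mem_bot] at hx
    rw [hx]; exact N.one_mem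
  have hfs := Nat.find_spec hex
  have hfm := fun i (hi : i < Nat.find hex) => Nat.find_min hex hi
  have hfle : Nat.find hex ≤ m + 1 := Nat.find_min' hex (by
    intro x _ hx
    rw [Φ.fin, Subgroup.mem_bot] at hx
    rw [hx]; exact N.one_mem)
  have hf1 : 1 < Nat.find hex := by
    by_contra h
    apply hNlt.not_ge
    intro x hx
    refine hfs x hx (Φ.anti (not_lt.mp h) ?_)
    rw [Φ.one]; trivial
  obtain ⟨w, hw⟩ : ∃ w, Nat.find hex = w + 1 := ⟨Nat.find hex - 1, by omega⟩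
  have hnw := hfm w (by omega)
  push Not at hnw
  obtain ⟨t, htP, htw, htN⟩ := hnw
  have ht0 : (⟨t, htP⟩ : P) ∉ N₀ := fun h => htN ((hNm t htP).mpr h)
  have hcQ : Nat.card (P ⧸ N₀) = p := hidx
  have hq1 : ((⟨t, htP⟩ : P) : P ⧸ N₀) ≠ 1 := fun h => ht0 ((QuotientGroup.eq_one_iff _).mp h)
  have hpow : ∀ j, t ^ j ∈ N ↔ ((⟨t, htP⟩ : P) : P ⧸ N₀) ^ j = 1 := by
    intro j
    rw [hNm (t ^ j) (P.pow_mem htP j), ← QuotientGroup.mk_pow, QuotientGroup.eq_one_iff]
    rfl
  refine ⟨N, t, w, ⟨hNP, htP, htw, ?_, ?_, ?_, ?_, ?_⟩, hNlt, by omega⟩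
  · rw [← hw]; exact hfs
  · intro g hg y hy
    have hyP := hNP hy
    rw [hNm _ (P.mul_mem (P.mul_mem hg hyP) (P.inv_mem hg))]
    exact hnor.conj_mem ⟨y, hyP⟩ ((hNm y hyP).mp hy) ⟨g, hg⟩
  · intro x hx
    obtain ⟨j, hj⟩ := mem_powers_of_prime_card (p := p) hcQ hq1 (g' := ((⟨x, hx⟩ : P) : P ⧸ N₀))
    simp only at hj
    have hjp : ((⟨t, htP⟩ : P) : P ⧸ N₀) ^ (j % p) = ((⟨x, hx⟩ : P) : P ⧸ N₀) := by
      rw [← hj]
      have h1 : ((⟨t, htP⟩ : P) : P ⧸ N₀) ^ p = 1 := by rw [← hcQ, pow_card_eq_one']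
      conv_rhs => rw [← Nat.mod_add_div j p, pow_add, pow_mul, h1, one_pow, mul_one]
    refine ⟨j % p, Nat.mod_lt _ hp.out.pos, x * (t ^ (j % p))⁻¹, ?_, by rw [inv_mul_cancel_right]⟩
    rw [hNm _ (P.mul_mem hx (P.inv_mem (P.pow_mem htP _))), ← QuotientGroup.eq_one_iff]
    have h2 : ((⟨x * (t ^ (j % p))⁻¹, P.mul_mem hx (P.inv_mem (P.pow_mem htP _))⟩ : P) : P ⧸ N₀) =
      ((⟨x, hx⟩ : P) : P ⧸ N₀) * (((⟨t, htP⟩ : P) : P ⧸ N₀) ^ (j % p))⁻¹ := rfl
    rw [h2, hjp, mul_inv_cancel]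
  · rw [hpow, ← hcQ, pow_card_eq_one']
  · intro j hj0 hjp h
    rw [hpow] at h
    have h1 : orderOf ((⟨t, htP⟩ : P) : P ⧸ N₀) = p := orderOf_eq_prime (by
      rw [← hcQ, pow_card_eq_one']) hq1
    have h2 := orderOf_dvd_of_pow_eq_one h
    rw [h1] at h2
    exact absurd (Nat.le_of_dvd hj0 h2) (by omega)

/-- **Jennings.** -/
theorem faithful [Finite G] [hp : Fact p.Prime] (hG : IsPGroup p G) :
    ∀ (k : ℕ) (P : Subgroup G), Nat.card P = k → ∀ x ∈ P, o p x - 1 ∈ E Φ P (m + 1) → x = 1 := by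
  classical
  intro k
  induction k using Nat.strong_induction_on with
  | _ k ih =>
  intro P hk x hx hE
  by_cases hP : P = ⊥
  · rw [hP, Subgroup.mem_bot] at hx; exact hx
  obtain ⟨N, t, w, hS, hlt, hw⟩ := exists_step (Φ := Φ) hG P hP
  have hcard : Nat.card N < k := by
    rw [← hk]
    exact Set.Finite.card_lt_card (Set.toFinite _) hlt
  obtain ⟨α, hα, hsum⟩ := E_le_F hS (m + 1) hE
  obtain ⟨j₀, hj₀, y, hy, rfl⟩ := hS.rep x hx
  -- the coefficients of `y (1 + τ)^j₀ - 1`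
  let β : ℕ → R p G := fun j => ((j₀.choose j : ℕ) : ZMod p) • o p y - if j = 0 then 1 else 0
  have hoN : (o p y : R p G) ∈ Sup p (N : Set G) := E_sup ((Mon.one (Φ := Φ) y hy).mem le_rfl)
  have h1N : (1 : R p G) ∈ Sup p (N : Set G) := by
    have := E_sup ((Mon.one (Φ := Φ) (P := N) 1 N.one_mem).mem le_rfl)
    rwa [o_one] at this
  have hβN : ∀ j, β j ∈ Sup p (N : Set G) := by
    intro j
    refine sub_mem (Submodule.smul_mem _ _ hoN) ?_
    split_ifs
    · exact h1N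
    · exact zero_mem _
  have hβ : o p (y * t ^ j₀) - 1 = ∑ j ∈ Finset.range p, β j * (o p t - 1) ^ j := by
    have h1 : (o p (t ^ j₀) : R p G) = ∑ j ∈ Finset.range p, ((j₀.choose j : ℕ) : ZMod p) • (o p t - 1) ^ j := by
      have h2 : (o p (t ^ j₀) : R p G) = ((o p t - 1) + 1) ^ j₀ := by rw [sub_add_cancel, o_pow]
      rw [h2, (Commute.one_right (o p t - 1 : R p G)).add_pow]
      have h3 : Finset.range (j₀ + 1) ⊆ Finset.range p := Finset.range_subset_range.mpr hj₀
      rw [← Finset.sum_subset h3]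
      · refine Finset.sum_congr rfl fun j _ => ?_
        rw [one_pow, mul_one, Algebra.smul_def, map_natCast]
        exact (Nat.cast_commute _ _).eq.symm
      · intro j _ hj
        rw [Finset.mem_range, not_lt] at hj
        rw [Nat.choose_eq_zero_of_lt (by omega), Nat.cast_zero, zero_smul]
    have h4 : ∀ j ∈ Finset.range p, β j * (o p t - 1) ^ j =
        o p y * (((j₀.choose j : ℕ) : ZMod p) • (o p t - 1) ^ j) - (if j = 0 then 1 else 0) := by
      intro j _
      change (((j₀.choose j : ℕ) : ZMod p) • o p y - if j = 0 then 1 else 0) * _ = _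
      rw [sub_mul, smul_mul_assoc, mul_smul_comm]
      congr 1
      split_ifs with h
      · rw [h, pow_zero, mul_one]
      · rw [zero_mul]
    rw [Finset.sum_congr rfl h4, Finset.sum_sub_distrib, ← Finset.mul_sum, ← h1, ← o_mul,
      Finset.sum_ite_eq' , if_pos (Finset.mem_range.mpr hp.out.pos)]
  -- comparison
  let α' : ℕ → R p G := fun j => if j < p then α j else 0
  have hdiff : ∀ j < p, (fun j => α' j - β j) j = 0 := by
    refine uniq (q := p) hS (fun j => α' j - β j) (fun j => sub_mem ?_ (hβN j)) le_rfl ?_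
    · change (if j < p then α j else 0) ∈ _
      split_ifs with h
      · exact E_sup (hα j h)
      · exact zero_mem _
    · have h1 : ∑ j ∈ Finset.range p, (α' j - β j) * (o p t - 1) ^ j =
          ∑ j ∈ Finset.range p, α j * (o p t - 1) ^ j - ∑ j ∈ Finset.range p, β j * (o p t - 1) ^ j := by
        rw [← Finset.sum_sub_distrib]
        refine Finset.sum_congr rfl fun j hj => ?_
        change ((if j < p then α j else 0) - β j) * _ = _
        rw [if_pos (Finset.mem_range.mp hj), sub_mul]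
      change ∑ j ∈ Finset.range p, (α' j - β j) * (o p t - 1) ^ j = 0
      rw [h1, ← hsum, ← hβ, sub_self]
  have hαβ : ∀ j < p, α j = β j := by
    intro j hj
    have h1 := hdiff j hj
    change (if j < p then α j else 0) - β j = 0 at h1
    rw [if_pos hj] at h1
    exact sub_eq_zero.mp h1
  by_cases hj0 : j₀ = 0
  · subst hj0
    have h1 := hαβ 0 hp.out.pos
    have h2 : β 0 = o p y - 1 := by
      change ((Nat.choose 0 0 : ℕ) : ZMod p) • o p y - (if (0 : ℕ) = 0 then (1 : R p G) else 0) = _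
      rw [if_pos rfl, Nat.choose_self, Nat.cast_one, one_smul]
    rw [h2] at h1
    have h3 := hα 0 hp.out.pos
    rw [h1, zero_mul, Nat.sub_zero] at h3
    rw [pow_zero, mul_one]
    exact ih _ hcard N rfl y hy h3
  · exfalso
    have h1 := hαβ 1 hp.out.one_lt
    have h2 : β 1 = (j₀ : ZMod p) • o p y := by
      change ((Nat.choose j₀ 1 : ℕ) : ZMod p) • o p y - (if (1 : ℕ) = 0 then (1 : R p G) else 0) = _
      rw [if_neg one_ne_zero, sub_zero, Nat.choose_one_right]
    have h3 := E_aug (by omega) (hα 1 hp.out.one_lt)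
    rw [h1, h2, map_smul, aug_o, smul_eq_mul, mul_one, ZMod.natCast_eq_zero_iff] at h3
    exact absurd (Nat.le_of_dvd (Nat.pos_of_ne_zero hj0) h3) (by omega)

end Pool.Agent.H300.JN
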