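import Mathlib
import Pool.Agent.H300.JN.Jen

/-! A small faithful representation of a group with a filtration. -/

set_option autoImplicit false

namespace Pool.Agent.H300.JN

variable {G : Type} [Group G] {p m : ℕ}

/-- generators -/
theorem exists_gen [Finite G] [hp : Fact p.Prime] {n : ℕ} (hG : Nat.card G = p ^ n) :
    ∃ x : Fin n → G, Subgroup.closure (Set.range x) = ⊤ := by
  classical
  have hGp : IsPGroup p G := IsPGroup.of_card hG
  have key : ∀ j ≤ n, ∃ x : Fin j → G, p ^ j ≤ Nat.card (Subgroup.closure (Set.range x)) := by
    intro j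
    induction j with
    | zero => exact fun _ => ⟨fun i => i.elim0, by rw [pow_zero]; exact Nat.card_pos⟩
    | succ j ih =>
      intro hj
      obtain ⟨x, hx⟩ := ih (by omega)
      by_cases h : Subgroup.closure (Set.range x) = ⊤
      · refine ⟨Fin.cons 1 x, ?_⟩
        have h1 : Subgroup.closure (Set.range (Fin.cons 1 x : Fin (j + 1) → G)) = ⊤ := by
          rw [eq_top_iff, ← h]
          apply Subgroup.closure_mono
          rintro _ ⟨i, rfl⟩
          exact ⟨i.succ, Fin.cons_succ _ _ _⟩
        rw [h1, Subgroup.card_top, hG]
        exact Nat.pow_le_pow_right hp.out.pos hj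
      · obtain ⟨y, hy⟩ : ∃ y, y ∉ Subgroup.closure (Set.range x) := by
          by_contra hc
          push Not at hc
          exact h (eq_top_iff.mpr fun y _ => hc y)
        refine ⟨Fin.cons y x, ?_⟩
        have hlt : Subgroup.closure (Set.range x) <
            Subgroup.closure (Set.range (Fin.cons y x : Fin (j + 1) → G)) := by
          refine lt_of_le_of_ne (Subgroup.closure_mono ?_) fun he => hy ?_
          · rintro _ ⟨i, rfl⟩
            exact ⟨i.succ, Fin.cons_succ _ _ _⟩
          · rw [he]
            exact Subgroup.subset_closure ⟨0, Fin.cons_zero _ _⟩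
        have hc := Set.Finite.card_lt_card (Set.toFinite _) hlt
        obtain ⟨a, ha⟩ := IsPGroup.iff_card.mp (hGp.to_subgroup (Subgroup.closure (Set.range x)))
        obtain ⟨b, hb⟩ := IsPGroup.iff_card.mp
          (hGp.to_subgroup (Subgroup.closure (Set.range (Fin.cons y x : Fin (j + 1) → G))))
        rw [ha] at hx
        have h1 : j ≤ a := (Nat.pow_le_pow_iff_right hp.out.one_lt).mp hx
        have h2 : p ^ a < p ^ b := by rw [← ha, ← hb]; exact hc
        have h3 : a < b := (Nat.pow_lt_pow_iff_right hp.out.one_lt).mp h2
        rw [hb]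
        exact Nat.pow_le_pow_right hp.out.pos (by omega)
  obtain ⟨x, hx⟩ := key n le_rfl
  refine ⟨x, ?_⟩
  apply Subgroup.eq_top_of_card_eq
  apply le_antisymm
  · exact Nat.card_le_card_of_injective _ (Subgroup.subtype_injective _)
  · rw [hG]; exact hx

variable (Φ : Fil G p m)

/-- the module -/
abbrev V : Type := R p G ⧸ E Φ (⊤ : Subgroup G) (m + 1)

theorem left_stable (g : G) : E Φ (⊤ : Subgroup G) (m + 1) ≤
    (E Φ (⊤ : Subgroup G) (m + 1)).comap (LinearMap.mulLeft (ZMod p) (o p g)) := fun _ ha =>
  E_left' ha (Subgroup.mem_top g)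

/-- the representation -/
noncomputable def rep : G →* Module.End (ZMod p) (V Φ) where
  toFun g := Submodule.mapQ _ _ (LinearMap.mulLeft (ZMod p) (o p g)) (left_stable Φ g)
  map_one' := by
    apply LinearMap.ext
    intro v
    obtain ⟨a, rfl⟩ := Submodule.Quotient.mk_surjective _ v
    change Submodule.Quotient.mk (o p 1 * a) = _
    rw [o_one, one_mul]
    rfl
  map_mul' g h := by
    apply LinearMap.ext
    intro v
    obtain ⟨a, rfl⟩ := Submodule.Quotient.mk_surjective _ v
    change Submodule.Quotient.mk (o p (g * h) * a) = Submodule.Quotient.mk (o p g * (o p h * a))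
    rw [o_mul, mul_assoc]

theorem rep_mk (g : G) (a : R p G) :
    rep Φ g (Submodule.Quotient.mk a) = Submodule.Quotient.mk (o p g * a) := rfl

theorem rep_inj [Finite G] [hp : Fact p.Prime] (hG : IsPGroup p G) :
    Function.Injective (rep Φ) := by
  rw [injective_iff_map_eq_one]
  intro g hg
  have h1 := LinearMap.congr_fun hg (Submodule.Quotient.mk 1)
  rw [rep_mk, mul_one] at h1
  have h2 : o p g - 1 ∈ E Φ (⊤ : Subgroup G) (m + 1) := (Submodule.Quotient.eq _).mp h1
  exact faithful hG _ ⊤ rfl g trivial h2

/-- words -/
noncomputable def wd {n : ℕ} (x : Fin n → G) (L : List (Fin n)) : R p G :=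
  (L.map fun i => o p (x i) - 1).prod

theorem wd_mon {n : ℕ} (x : Fin n → G) (L : List (Fin n)) :
    Mon Φ ⊤ L.length (wd (p := p) x L) := by
  induction L with
  | nil =>
    have := Mon.one (Φ := Φ) (P := ⊤) 1 trivial
    rw [o_one] at this
    exact this
  | cons i L ih =>
    exact Mon.mul L.length 1 _ (x i) trivial (by rw [Φ.one]; trivial) ih

theorem finrank_le [Finite G] [hp : Fact p.Prime] {n : ℕ} (hG : Nat.card G = p ^ n) :
    Module.finrank (ZMod p) (V Φ) ≤ (n + 1) ^ m := by
  classical
  obtain ⟨x, hx⟩ := exists_gen hG
  let b : List.Vector (Option (Fin n)) m → V Φ := fun v =>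
    Submodule.Quotient.mk (wd x v.toList.reduceOption)
  have hb : ∀ L : List (Fin n), L.length ≤ m →
      (Submodule.Quotient.mk (wd x L) : V Φ) ∈ Submodule.span (ZMod p) (Set.range b) := by
    intro L hL
    refine Submodule.subset_span ⟨⟨L.map some ++ List.replicate (m - L.length) none, ?_⟩, ?_⟩
    · rw [List.length_append, List.length_map, List.length_replicate]; omega
    · change Submodule.Quotient.mk (wd x (List.reduceOption (L.map some ++ List.replicate (m - L.length) none))) = _
      rw [List.reduceOption_append, List.reduceOption_replicate_none, List.append_nil]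
      congr 2
      unfold List.reduceOption
      rw [List.filterMap_map]
      exact List.filterMap_some
  let S := Submodule.span (ZMod p) (Set.range b)
  have hgen : ∀ i, ∀ v ∈ S, rep Φ (x i) v ∈ S := by
    intro i v hv
    induction hv using Submodule.span_induction with
    | mem v hv =>
      obtain ⟨u, rfl⟩ := hv
      have hlen : u.toList.reduceOption.length ≤ m := by
        refine (List.reduceOption_length_le _).trans ?_
        rw [List.Vector.toList_length]
      change rep Φ (x i) (Submodule.Quotient.mk (wd x u.toList.reduceOption)) ∈ S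
      rw [rep_mk]
      have h1 : o p (x i) * wd x u.toList.reduceOption =
          wd x (i :: u.toList.reduceOption) + wd x u.toList.reduceOption := by
        change _ = (o p (x i) - 1) * wd x u.toList.reduceOption + _
        rw [sub_mul, one_mul, sub_add_cancel]
      rw [h1, Submodule.Quotient.mk_add]
      refine add_mem ?_ (hb _ hlen)
      rcases Nat.lt_or_ge u.toList.reduceOption.length m with h | h
      · exact hb _ (by rw [List.length_cons]; omega)
      · have h2 : (Submodule.Quotient.mk (wd x (i :: u.toList.reduceOption)) : V Φ) = 0 := by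
          rw [Submodule.Quotient.mk_eq_zero]
          exact (wd_mon Φ x _).mem (by rw [List.length_cons]; omega)
        rw [h2]; exact zero_mem _
    | zero => rw [map_zero]; exact zero_mem _
    | add u v _ _ hu hv => rw [map_add]; exact add_mem hu hv
    | smul c v _ hv => rw [map_smul]; exact Submodule.smul_mem _ _ hv
  let T : Submonoid G :=
    { carrier := {g | ∀ v ∈ S, rep Φ g v ∈ S}
      mul_mem' := fun {g h} hg hh v hv => by
        rw [map_mul]
        exact hg _ (hh v hv)
      one_mem' := fun v hv => by rw [map_one]; exact hv }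
  have hT : ∀ g, g ∈ T := by
    intro g
    have hg : g ∈ Subgroup.closure (Set.range x) := by rw [hx]; trivial
    induction hg using Subgroup.closure_induction with
    | mem g hg => obtain ⟨i, rfl⟩ := hg; exact hgen i
    | one => exact T.one_mem
    | mul g h _ _ hg hh => exact T.mul_mem hg hh
    | inv g _ hg =>
      have h1 : g⁻¹ = g ^ (orderOf g - 1) := by
        rw [inv_eq_iff_mul_eq_one, ← pow_succ', Nat.sub_add_cancel (orderOf_pos g), pow_orderOf_eq_one]
      rw [h1]
      exact T.pow_mem hg _
  have hS : S = ⊤ := by
    rw [eq_top_iff]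
    intro v _
    obtain ⟨a, rfl⟩ := Submodule.Quotient.mk_surjective _ v
    induction a using MonoidAlgebra.induction_on with
    | of g =>
      have h1 := hT g _ (hb [] (Nat.zero_le _))
      have h2 : (wd x [] : R p G) = 1 := rfl
      rw [h2, rep_mk, mul_one] at h1
      exact h1
    | add a b ha hb' => rw [Submodule.Quotient.mk_add]; exact add_mem (ha trivial) (hb' trivial)
    | smul c a ha => rw [Submodule.Quotient.mk_smul]; exact Submodule.smul_mem _ _ (ha trivial)
  have h1 := finrank_range_le_card (R := ZMod p) b
  rw [Set.finrank] at h1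
  change Module.finrank (ZMod p) S ≤ _ at h1
  rw [hS, finrank_top, card_vector, Fintype.card_option, Fintype.card_fin] at h1
  exact h1

end Pool.Agent.H300.JN
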