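import Mathlib
import Pool.Agent.H300.JN.Rep

/-! A group of order at most `p ^ (n + 1) ^ (2 m)` which contains all groups of order `p ^ n` with a filtration of
length `m`. -/

set_option autoImplicit false

namespace Pool.Agent.H300.JN

/-- an injective representation of dimension at most `N` gives one of dimension `N` -/
theorem embed_end {G : Type} [Group G] {p : ℕ} [hp : Fact p.Prime] {W : Type} [AddCommGroup W]
    [Module (ZMod p) W] [Module.Finite (ZMod p) W] (ρ : G →* Module.End (ZMod p) W)
    (hρ : Function.Injective ρ) {N : ℕ} (hN : Module.finrank (ZMod p) W ≤ N) :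
    ∃ φ : G →* (Module.End (ZMod p) (Fin N → ZMod p))ˣ, Function.Injective φ := by
  classical
  let X := W × (Fin (N - Module.finrank (ZMod p) W) → ZMod p)
  have hX : Module.finrank (ZMod p) X = N := by
    change Module.finrank (ZMod p) (W × (Fin (N - Module.finrank (ZMod p) W) → ZMod p)) = N
    rw [Module.finrank_prod, Module.finrank_fin_fun]
    omega
  obtain ⟨e⟩ : Nonempty (X ≃ₗ[ZMod p] (Fin N → ZMod p)) :=
    FiniteDimensional.nonempty_linearEquiv_of_finrank_eq (by rw [hX, Module.finrank_fin_fun])
  let σ : G →* Module.End (ZMod p) X :=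
    { toFun := fun g => LinearMap.prodMap (ρ g) LinearMap.id
      map_one' := by
        rw [map_one]
        apply LinearMap.ext
        rintro ⟨a, b⟩
        rfl
      map_mul' := fun g h => by
        rw [map_mul]
        apply LinearMap.ext
        rintro ⟨a, b⟩
        rfl }
  let τ : G →* Module.End (ZMod p) (Fin N → ZMod p) :=
    { toFun := fun g => e.toLinearMap.comp ((σ g).comp e.symm.toLinearMap)
      map_one' := by
        rw [map_one]
        apply LinearMap.ext
        intro v
        change e (e.symm v) = v
        rw [LinearEquiv.apply_symm_apply]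
      map_mul' := fun g h => by
        rw [map_mul]
        apply LinearMap.ext
        intro v
        change e (σ g (σ h (e.symm v))) = e (σ g (e.symm (e (σ h (e.symm v)))))
        rw [LinearEquiv.symm_apply_apply] }
  refine ⟨τ.toHomUnits, fun g h hgh => ?_⟩
  have h1 : τ g = τ h := congrArg Units.val hgh
  have h2 : σ g = σ h := by
    apply LinearMap.ext
    intro v
    have h4 := LinearMap.congr_fun h1 (e v)
    change e (σ g (e.symm (e v))) = e (σ h (e.symm (e v))) at h4
    rw [LinearEquiv.symm_apply_apply] at h4
    exact e.injective h4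
  apply hρ
  apply LinearMap.ext
  intro v
  have h3 := LinearMap.congr_fun h2 (v, 0)
  exact congrArg Prod.fst h3

theorem card_end (p N : ℕ) [hp : Fact p.Prime] :
    Nat.card (Module.End (ZMod p) (Fin N → ZMod p)) = p ^ (N * N) := by
  have e := ((Pi.basisFun (ZMod p) (Fin N)).constr (M' := Fin N → ZMod p) (ZMod p)).toEquiv
  rw [← Nat.card_congr e, Nat.card_fun, Nat.card_fun, Nat.card_fin, Nat.card_zmod, ← pow_mul]

/-- **The universal group.** -/
theorem universal {p : ℕ} (hp : p.Prime) (n m : ℕ) :
    ∃ (e : ℕ) (U : Type) (_ : Group U), Nat.card U = p ^ e ∧ e ≤ (n + 1) ^ (2 * m) ∧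
      ∀ (P : Type) [Group P], Nat.card P = p ^ n → Nonempty (Fil P p m) →
        ∃ φ : P →* U, Function.Injective φ := by
  classical
  haveI : Fact p.Prime := ⟨hp⟩
  let N := (n + 1) ^ m
  let W := (Module.End (ZMod p) (Fin N → ZMod p))ˣ
  have hE := card_end p N
  haveI : Finite (Module.End (ZMod p) (Fin N → ZMod p)) :=
    Nat.finite_of_card_ne_zero (by rw [hE]; exact (pow_pos hp.pos _).ne')
  haveI : Finite W := Finite.of_injective (Units.val : W → _) Units.val_injective
  let S : Sylow p W := Classical.choice inferInstance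
  have hS : Nat.card S = p ^ (Nat.card W).factorization p := S.card_eq_multiplicity
  refine ⟨(Nat.card W).factorization p, S, inferInstance, hS, ?_, ?_⟩
  · have h1 : p ^ (Nat.card W).factorization p ≤ p ^ (N * N) := by
      rw [← hS, ← hE]
      exact (Nat.card_le_card_of_injective _ (Subgroup.subtype_injective (S : Subgroup W))).trans
        (Nat.card_le_card_of_injective _ Units.val_injective)
    have h2 := (Nat.pow_le_pow_iff_right hp.one_lt).mp h1
    refine h2.trans (le_of_eq ?_)
    change (n + 1) ^ m * (n + 1) ^ m = _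
    rw [← pow_add, two_mul]
  · intro P _ hP ⟨Φ⟩
    haveI : Finite P := Nat.finite_of_card_ne_zero (by rw [hP]; exact (pow_pos hp.pos n).ne')
    have hPp : IsPGroup p P := IsPGroup.of_card hP
    haveI : Module.Finite (ZMod p) (R p P) := inferInstance
    obtain ⟨φ, hφ⟩ := embed_end (rep Φ) (rep_inj Φ hPp) (finrank_le Φ hP)
    have hr : IsPGroup p φ.range := hPp.of_surjective φ.rangeRestrict φ.rangeRestrict_surjective
    obtain ⟨Q, hQ⟩ := hr.exists_le_sylow
    let E : Q ≃* S := Sylow.equiv Q S
    refine ⟨E.toMonoidHom.comp (φ.codRestrict (Q : Subgroup W) fun x => hQ ⟨x, rfl⟩), ?_⟩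
    intro x y hxy
    apply hφ
    have h1 := E.injective hxy
    exact congrArg Subtype.val h1

end Pool.Agent.H300.JN
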