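import Mathlib
import Pool.Agent.H300.JN.Uni

/-! The dimension of the quotient is at most a binomial coefficient. -/

set_option autoImplicit false

namespace Pool.Agent.H300.JN

variable {G : Type} [Group G] {p m : ℕ} {Φ : Fil G p m}

theorem E_mono {N P : Subgroup G} (h : N ≤ P) (r : ℕ) : E Φ N r ≤ E Φ P r := by
  refine Submodule.span_mono ?_
  rintro a ⟨s, hs, hm⟩
  refine ⟨s, hs, ?_⟩
  clear hs
  induction hm with
  | one g hg => exact Mon.one g (h hg)
  | mul r' i a' x hP hi _ ih => exact Mon.mul r' i a' x (h hP) hi ih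

theorem sup_span (P : Subgroup G) : (Sup p (P : Set G)) ≤ Submodule.span (ZMod p) (o p '' (P : Set G)) := by
  classical
  intro a ha
  rw [mem_Sup] at ha
  have h1 : a = ∑ g ∈ a.coeff.support, a.coeff g • o p g := by
    apply MonoidAlgebra.ext
    have h2 : a.coeff = ∑ g ∈ a.coeff.support, Finsupp.single g (a.coeff g) := (Finsupp.sum_single a.coeff).symm
    conv_lhs => rw [h2]
    rw [MonoidAlgebra.coeff_sum]
    refine Finset.sum_congr rfl fun g _ => ?_
    unfold o
    rw [MonoidAlgebra.of_apply, MonoidAlgebra.smul_single, MonoidAlgebra.coeff_single, smul_eq_mul, mul_one]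
  rw [h1]
  refine Submodule.sum_mem _ fun g hg => Submodule.smul_mem _ _ (Submodule.subset_span ⟨g, ?_, rfl⟩)
  by_contra h
  exact (Finsupp.mem_support_iff.mp hg) (ha g h)

/-- the bound -/
def bd (n r : ℕ) : ℕ := if r = 0 then 0 else (n + (r - 1)).choose n

theorem bd_mono (n : ℕ) {r s : ℕ} (h : r ≤ s) : bd n r ≤ bd n s := by
  unfold bd
  split_ifs with h1 h2
  · exact le_rfl
  · exact Nat.zero_le _
  · omega
  · exact Nat.choose_le_choose n (by omega)

theorem hockey (n r q : ℕ) : ∑ j ∈ Finset.range q, bd n (r - j) ≤ bd (n + 1) r := by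
  rcases Nat.eq_zero_or_pos r with rfl | hr
  · have : ∀ j ∈ Finset.range q, bd n (0 - j) = 0 := fun j _ => by
      rw [Nat.zero_sub]; rfl
    rw [Finset.sum_congr rfl this]
    simp
  · obtain ⟨s, rfl⟩ : ∃ s, r = s + 1 := ⟨r - 1, by omega⟩
    have h1 : ∑ j ∈ Finset.range q, bd n (s + 1 - j) ≤ ∑ j ∈ Finset.range (s + 1), bd n (s + 1 - j) := by
      have h2 : ∑ j ∈ Finset.range q, bd n (s + 1 - j) =
          ∑ j ∈ (Finset.range q).filter (fun j => j < s + 1), bd n (s + 1 - j) := by
        rw [Finset.sum_filter]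
        refine Finset.sum_congr rfl fun j _ => ?_
        split_ifs with h
        · rfl
        · rw [Nat.sub_eq_zero_of_le (by omega)]; rfl
      rw [h2]
      refine Finset.sum_le_sum_of_subset ?_
      intro j hj
      rw [Finset.mem_filter] at hj
      exact Finset.mem_range.mpr hj.2
    refine h1.trans (le_of_eq ?_)
    rw [← Finset.sum_range_reflect]
    have h3 : ∀ j ∈ Finset.range (s + 1), bd n (s + 1 - (s + 1 - 1 - j)) = (j + n).choose n := by
      intro j hj
      rw [Finset.mem_range] at hj
      unfold bd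
      rw [if_neg (by omega)]
      congr 1
      omega
    rw [Finset.sum_congr rfl h3, Nat.sum_range_add_choose]
    unfold bd
    rw [if_neg (by omega)]
    congr 1
    omega

theorem tau_mem {P : Subgroup G} {t : G} {w : ℕ} (ht : t ∈ P) (hw : t ∈ Φ.H w) (j : ℕ) :
    (o p t - 1) ^ j ∈ E Φ P (j * w) := by
  induction j with
  | zero =>
    rw [pow_zero, ← o_one]
    exact (Mon.one (Φ := Φ) (P := P) 1 P.one_mem).mem (by omega)
  | succ j ih =>
    rw [pow_succ', Nat.succ_mul]
    exact E_left ih ht hw

theorem spans [Finite G] [hp : Fact p.Prime] (hG : IsPGroup p G) :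
    ∀ (n : ℕ) (P : Subgroup G), Nat.card P = p ^ n → ∀ r : ℕ, ∃ S : Finset (R p G),
      S.card ≤ bd n r ∧ ∀ g ∈ P, o p g ∈ Submodule.span (ZMod p) (S : Set (R p G)) ⊔ E Φ P r := by
  classical
  intro n
  induction n with
  | zero =>
    intro P hP r
    rcases Nat.eq_zero_or_pos r with rfl | hr
    · exact ⟨∅, by simp, fun g hg => Submodule.mem_sup_right ((Mon.one (Φ := Φ) g hg).mem le_rfl)⟩
    · refine ⟨{1}, ?_, fun g hg => ?_⟩
      · unfold bd
        rw [if_neg (by omega), Finset.card_singleton, Nat.choose_zero_right]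
      · have h1 : P = ⊥ := Subgroup.eq_bot_of_card_eq P (by rw [hP, pow_zero])
        rw [h1, Subgroup.mem_bot] at hg
        rw [hg, o_one]
        exact Submodule.mem_sup_left (Submodule.subset_span (by simp))
  | succ n ih =>
    intro P hP r
    have hPb : P ≠ ⊥ := by
      rintro rfl
      rw [Subgroup.card_bot] at hP
      exact (Nat.one_lt_pow (Nat.succ_ne_zero n) hp.out.one_lt).ne hP
    obtain ⟨N, t, w, hS, hlt, hwm⟩ := exists_step (Φ := Φ) hG P hPb
    have hw1 : 1 ≤ w := by
      by_contra h
      have h0 : w = 0 := by omega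
      subst h0
      refine hlt.not_ge fun x hx => hS.deep x hx ?_
      rw [Nat.zero_add, Φ.one]; trivial
    have hNc : Nat.card N = p ^ n := by
      obtain ⟨a, ha⟩ := IsPGroup.iff_card.mp (hG.to_subgroup N)
      have h1 := Set.Finite.card_lt_card (Set.toFinite _) hlt
      have h1' : p ^ a < p ^ (n + 1) := by rw [← ha, ← hP]; exact h1
      have h2 : a < n + 1 := (Nat.pow_lt_pow_iff_right hp.out.one_lt).mp h1'
      have h3 : Nat.card P ≤ Nat.card (N × Fin p) := by
        refine Nat.card_le_card_of_surjective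
          (fun q : N × Fin p => (⟨q.1 * t ^ (q.2 : ℕ), P.mul_mem (hS.le q.1.2) (P.pow_mem hS.tP _)⟩ : P)) ?_
        rintro ⟨x, hx⟩
        obtain ⟨j, hj, y, hy, rfl⟩ := hS.rep x hx
        exact ⟨(⟨y, hy⟩, ⟨j, hj⟩), rfl⟩
      rw [Nat.card_prod, hP, ha, Nat.card_fin, ← pow_succ] at h3
      have h4 := (Nat.pow_le_pow_iff_right hp.out.one_lt).mp h3
      rw [ha]
      congr 1
      omega
    choose S hSc hSs using fun j : ℕ => ih N hNc (r - j * w)
    refine ⟨(Finset.range p).biUnion fun j => (S j).image fun a => a * (o p t - 1) ^ j, ?_, ?_⟩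
    · refine Finset.card_biUnion_le.trans ?_
      refine le_trans (Finset.sum_le_sum fun j _ => ?_) (hockey n r p)
      refine Finset.card_image_le.trans ((hSc j).trans (bd_mono n ?_))
      have : j * 1 ≤ j * w := Nat.mul_le_mul_left j hw1
      omega
    · intro g hg
      obtain ⟨j₀, hj₀, y, hy, rfl⟩ := hS.rep g hg
      have h1 : (o p (t ^ j₀) : R p G) = ∑ j ∈ Finset.range p, ((j₀.choose j : ℕ) : ZMod p) • (o p t - 1) ^ j := by
        have h2 : (o p (t ^ j₀) : R p G) = ((o p t - 1) + 1) ^ j₀ := by rw [sub_add_cancel, o_pow]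
        rw [h2, (Commute.one_right (o p t - 1 : R p G)).add_pow]
        have h3 : Finset.range (j₀ + 1) ⊆ Finset.range p := Finset.range_subset_range.mpr hj₀
        rw [← Finset.sum_subset h3]
        · refine Finset.sum_congr rfl fun j _ => ?_
          rw [one_pow, mul_one, Algebra.smul_def, map_natCast]
          exact (Nat.cast_commute _ _).eq.symm
        · intro j _ hj
          rw [Finset.mem_range, not_lt] at hj
          rw [Nat.choose_eq_zero_of_lt (by omega), Nat.cast_zero, zero_smul]
      rw [o_mul, h1, Finset.mul_sum]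
      refine Submodule.sum_mem _ fun j hj => ?_
      rw [mul_smul_comm]
      refine Submodule.smul_mem _ _ ?_
      obtain ⟨u, hu, v, hv, huv⟩ := Submodule.mem_sup.mp (hSs j y hy)
      rw [← huv, add_mul]
      refine add_mem (Submodule.mem_sup_left ?_) (Submodule.mem_sup_right ?_)
      · clear huv
        induction hu using Submodule.span_induction with
        | mem x hx =>
          refine Submodule.subset_span ?_
          rw [Finset.mem_coe, Finset.mem_biUnion]
          exact ⟨j, hj, Finset.mem_image_of_mem _ hx⟩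
        | zero => rw [zero_mul]; exact zero_mem _
        | add x z _ _ hx hz => rw [add_mul]; exact add_mem hx hz
        | smul c x _ hx => rw [smul_mul_assoc]; exact Submodule.smul_mem _ _ hx
      · have h5 := E_mul (E_mono (Φ := Φ) hS.le _ hv) (tau_mem hS.tP hS.tw j)
        exact E_anti (by omega) h5

theorem finrank_le' [Finite G] [hp : Fact p.Prime] {n : ℕ} (hG : Nat.card G = p ^ n) :
    Module.finrank (ZMod p) (V Φ) ≤ (n + m).choose m := by
  classical
  obtain ⟨S, hS, hs⟩ := spans (Φ := Φ) (IsPGroup.of_card hG) n ⊤ (by rw [Subgroup.card_top, hG]) (m + 1)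
  have h1 : (⊤ : Submodule (ZMod p) (V Φ)) ≤
      Submodule.span (ZMod p) ((S.image fun a => (Submodule.Quotient.mk a : V Φ)) : Set (V Φ)) := by
    intro v _
    obtain ⟨a, rfl⟩ := Submodule.Quotient.mk_surjective _ v
    have h2 : ∀ g : G, (Submodule.Quotient.mk (o p g) : V Φ) ∈
        Submodule.span (ZMod p) ((S.image fun a => (Submodule.Quotient.mk a : V Φ)) : Set (V Φ)) := by
      intro g
      obtain ⟨u, hu, w, hw, huw⟩ := Submodule.mem_sup.mp (hs g trivial)
      rw [← huw, Submodule.Quotient.mk_add, (Submodule.Quotient.mk_eq_zero _).mpr hw, add_zero]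
      clear huw
      induction hu using Submodule.span_induction with
      | mem x hx =>
        refine Submodule.subset_span ?_
        rw [Finset.mem_coe]
        exact Finset.mem_image_of_mem _ hx
      | zero => exact zero_mem _
      | add x z _ _ hx hz => rw [Submodule.Quotient.mk_add]; exact add_mem hx hz
      | smul c x _ hx => rw [Submodule.Quotient.mk_smul]; exact Submodule.smul_mem _ _ hx
    induction a using MonoidAlgebra.induction_on with
    | of g => exact h2 g
    | add a b ha hb' => rw [Submodule.Quotient.mk_add]; exact add_mem (ha trivial) (hb' trivial)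
    | smul c a ha => rw [Submodule.Quotient.mk_smul]; exact Submodule.smul_mem _ _ (ha trivial)
  have h3 := finrank_span_finset_le_card (R := ZMod p) (S.image fun a => (Submodule.Quotient.mk a : V Φ))
  rw [Set.finrank, eq_top_iff.mpr h1, finrank_top] at h3
  refine h3.trans (Finset.card_image_le.trans (hS.trans (le_of_eq ?_)))
  unfold bd
  rw [if_neg (by omega), Nat.add_sub_cancel, Nat.choose_symm_add]

/-- **The universal group, binomial bound.** -/
theorem universal' {p : ℕ} (hp : p.Prime) (n m : ℕ) :
    ∃ (e : ℕ) (U : Type) (_ : Group U), Nat.card U = p ^ e ∧ e ≤ ((n + m).choose m) ^ 2 ∧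
      ∀ (P : Type) [Group P], Nat.card P = p ^ n → Nonempty (Fil P p m) →
        ∃ φ : P →* U, Function.Injective φ := by
  classical
  haveI : Fact p.Prime := ⟨hp⟩
  let N := (n + m).choose m
  let W := (Module.End (ZMod p) (Fin N → ZMod p))ˣ
  have hE := card_end p N
  haveI : Finite (Module.End (ZMod p) (Fin N → ZMod p)) :=
    Nat.finite_of_card_ne_zero (by rw [hE]; exact (pow_pos hp.pos _).ne')
  haveI : Finite W := Finite.of_injective (Units.val : W → _) Units.val_injective
  let S : Sylow p W := Classical.choice inferInstance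
  have hS : Nat.card S = p ^ (Nat.card W).factorization p := S.card_eq_multiplicity
  refine ⟨(Nat.card W).factorization p, S, inferInstance, hS, ?_, ?_⟩
  · have h1 : p ^ (Nat.card W).factorization p ≤ p ^ (N * N) := by
      rw [← hS, ← hE]
      exact (Nat.card_le_card_of_injective _ (Subgroup.subtype_injective (S : Subgroup W))).trans
        (Nat.card_le_card_of_injective _ Units.val_injective)
    have h2 := (Nat.pow_le_pow_iff_right hp.one_lt).mp h1
    rw [sq]
    exact h2
  · intro P _ hP ⟨Φ⟩
    haveI : Finite P := Nat.finite_of_card_ne_zero (by rw [hP]; exact (pow_pos hp.pos n).ne')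
    have hPp : IsPGroup p P := IsPGroup.of_card hP
    haveI : Module.Finite (ZMod p) (R p P) := inferInstance
    obtain ⟨φ, hφ⟩ := embed_end (rep Φ) (rep_inj Φ hPp) (finrank_le' (Φ := Φ) hP)
    have hr : IsPGroup p φ.range := hPp.of_surjective φ.rangeRestrict φ.rangeRestrict_surjective
    obtain ⟨Q, hQ⟩ := hr.exists_le_sylow
    let E : Q ≃* S := Sylow.equiv Q S
    refine ⟨E.toMonoidHom.comp (φ.codRestrict (Q : Subgroup W) fun x => hQ ⟨x, rfl⟩), ?_⟩
    intro x y hxy
    apply hφ
    have h1 := E.injective hxy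
    exact congrArg Subtype.val h1

/-- growth of the binomial coefficient -/
theorem choose_le_exp (n c : ℕ) {x : ℝ} (hx : 0 < x) :
    (((n + c).choose c : ℕ) : ℝ) ≤ Real.exp (c * (-Real.log x) + (n + c) * x) := by
  have h1 : (((n + c).choose c : ℕ) : ℝ) * x ^ c ≤ (1 + x) ^ (n + c) := by
    rw [add_comm 1 x, add_pow]
    have h2 := Finset.single_le_sum (s := Finset.range (n + c + 1))
      (f := fun i => x ^ i * 1 ^ (n + c - i) * (((n + c).choose i : ℕ) : ℝ))
      (fun i _ => by positivity) (Finset.mem_range.mpr (by omega : c < n + c + 1))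
    refine le_trans (le_of_eq ?_) h2
    simp only [one_pow, mul_one]
    ring
  have h2 : (1 + x) ^ (n + c) ≤ Real.exp ((n + c) * x) := by
    have h3 : (1 + x) ≤ Real.exp x := by linarith [Real.add_one_le_exp x]
    calc (1 + x) ^ (n + c) ≤ (Real.exp x) ^ (n + c) := by gcongr
      _ = Real.exp ((n + c) * x) := by
        rw [← Real.exp_nat_mul]; push_cast; rfl
  have h4 : x ^ c = Real.exp (c * Real.log x) := by rw [Real.exp_nat_mul, Real.exp_log hx]
  rw [h4] at h1
  have h5 := h1.trans h2
  rw [← le_div_iff₀ (Real.exp_pos _), ← Real.exp_sub] at h5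
  refine h5.trans (le_of_eq ?_)
  congr 1
  ring

end Pool.Agent.H300.JN
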