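import Mathlib
import Pool.Agent.H300.UG.Wr

/-! Universal groups for a class of groups give universal groups for the groups with a subgroup of small index in
this class. -/

set_option autoImplicit false

namespace Pool.Agent.H300.JN

open Pool.Agent.H300.UG (Wr wrEquiv induced)

theorem wreath {p : ℕ} (hp : p.Prime) (n k B : ℕ) (C : (Q : Type) → [Group Q] → Prop)
    (hC : ∀ (Q Q' : Type) [Group Q] [Group Q'] (f : Q' →* Q), Function.Injective f → C Q → C Q')
    (hU : ∀ j ≤ n, ∃ (e : ℕ) (U : Type) (_ : Group U), Nat.card U = p ^ e ∧ e ≤ B ∧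
      ∀ (P : Type) [Group P], Nat.card P = p ^ j → C P → ∃ φ : P →* U, Function.Injective φ) :
    ∃ (m : ℕ) (U : Type) (_ : Group U), Nat.card U = p ^ m ∧ m < p ^ k * (B + 1) ∧
      ∀ (P : Type) [Group P], Nat.card P = p ^ n → (∃ H : Subgroup P, H.index ≤ p ^ k ∧ C H) →
        ∃ φ : P →* U, Function.Injective φ := by
  classical
  haveI : Fact p.Prime := ⟨hp⟩
  obtain ⟨j, hj, hjk, hjn⟩ : ∃ j, j = min k n ∧ j ≤ k ∧ j ≤ n := ⟨_, rfl, min_le_left _ _, min_le_right _ _⟩
  obtain ⟨e, U₀, hG₀, hU₀, heB, hall⟩ := hU (n - j) (Nat.sub_le n j)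
  let W := Wr (Fin (p ^ j)) U₀
  haveI : Finite U₀ := Nat.finite_of_card_ne_zero (by rw [hU₀]; exact (pow_pos hp.pos _).ne')
  haveI : Finite W := Finite.of_equiv _ (wrEquiv (ι := Fin (p ^ j)) (U := U₀)).symm
  have hW : Nat.card W = p ^ (e * p ^ j) * (p ^ j).factorial := by
    rw [Nat.card_congr (wrEquiv (ι := Fin (p ^ j)) (U := U₀)), Nat.card_prod,
      Nat.card_fun, Nat.card_fin, hU₀, ← pow_mul, Nat.card_eq_fintype_card, Fintype.card_perm,
      Fintype.card_fin]
  let S : Sylow p W := Classical.choice inferInstance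
  have hS : Nat.card S = p ^ (Nat.card W).factorization p := S.card_eq_multiplicity
  refine ⟨(Nat.card W).factorization p, S, inferInstance, hS, ?_, ?_⟩
  · rw [hW, Nat.factorization_mul (pow_pos hp.pos _).ne' (Nat.factorial_ne_zero _),
      Finsupp.add_apply, hp.factorization_pow, Finsupp.single_eq_same]
    have h1 : (p ^ j).factorial.factorization p < p ^ j := by
      have h2 := sub_one_mul_padicValNat_factorial (p := p) (p ^ j)
      rw [Nat.factorization_def _ hp]
      have h3 : 0 < (Nat.digits p (p ^ j)).sum := by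
        rw [pos_iff_ne_zero]
        intro h
        have h5 : ∀ d ∈ Nat.digits p (p ^ j), d = 0 := by
          intro d hd
          have := List.single_le_sum (fun _ _ => Nat.zero_le _) d hd
          omega
        have h6 := Nat.ofDigits_digits p (p ^ j)
        have h7 : ∀ L : List ℕ, (∀ d ∈ L, d = 0) → Nat.ofDigits p L = 0 := by
          intro L
          induction L with
          | nil => intro _; rfl
          | cons a L ih =>
            intro hL
            rw [Nat.ofDigits_cons, ih fun d hd => hL d (List.mem_cons_of_mem _ hd),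
              hL a List.mem_cons_self]
            simp
        rw [h7 _ h5] at h6
        exact absurd h6.symm (pow_pos hp.pos _).ne'
      have h8 : (p - 1) * padicValNat p (p ^ j).factorial < p ^ j := by
        rw [h2]
        have := pow_pos hp.pos j
        omega
      have h9 : padicValNat p (p ^ j).factorial ≤ (p - 1) * padicValNat p (p ^ j).factorial :=
        Nat.le_mul_of_pos_left _ (by have := hp.two_le; omega)
      omega
    have h3 : p ^ j ≤ p ^ k := Nat.pow_le_pow_right hp.pos hjk
    calc e * p ^ j + (p ^ j).factorial.factorization p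
        < B * p ^ j + p ^ j := by
          have := Nat.mul_le_mul_right (p ^ j) heB
          omega
      _ = p ^ j * (B + 1) := by ring
      _ ≤ p ^ k * (B + 1) := Nat.mul_le_mul_right _ h3
  · intro P _ hP ⟨H, hHi, hH⟩
    haveI : Finite P := Nat.finite_of_card_ne_zero (by rw [hP]; exact (pow_pos hp.pos n).ne')
    obtain ⟨a, han, ha⟩ := (Nat.dvd_prime_pow hp).mp (hP ▸ H.card_subgroup_dvd_card)
    have hidx : H.index = p ^ (n - a) := by
      have h1 := H.card_mul_index
      rw [ha, hP] at h1
      have h2 : p ^ a * p ^ (n - a) = p ^ n := by rw [← pow_add]; congr 1; omega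
      exact Nat.eq_of_mul_eq_mul_left (pow_pos hp.pos a) (h1.trans h2.symm)
    have hak : n - a ≤ k := by
      rw [hidx] at hHi
      exact (Nat.pow_le_pow_iff_right hp.one_lt).mp hHi
    have hPp : IsPGroup p P := IsPGroup.of_card hP
    obtain ⟨K, hKc, hKH⟩ : ∃ K : Subgroup P, Nat.card K = p ^ (n - j) ∧ K ≤ H := by
      obtain ⟨K, hK, hKH⟩ := Sylow.exists_subgroup_le_card_pow_prime_of_le_card (n := n - j) hp hPp
        (H := H) (by rw [ha]; exact Nat.pow_le_pow_right hp.pos (by omega))
      exact ⟨K, hKH, hK⟩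
    have hKidx : Nat.card (P ⧸ K) = p ^ j := by
      have h1 := K.card_mul_index
      rw [hKc, hP] at h1
      have h2 : p ^ (n - j) * p ^ j = p ^ n := by rw [← pow_add]; congr 1; omega
      exact Nat.eq_of_mul_eq_mul_left (pow_pos hp.pos _) (h1.trans h2.symm)
    obtain ⟨ψ, hψ⟩ := hall K hKc (hC H K (Subgroup.inclusion hKH) (Subgroup.inclusion_injective hKH) hH)
    have e : (P ⧸ K) ≃ Fin (p ^ j) := by
      rw [← hKidx]
      exact Finite.equivFin _
    obtain ⟨φ, hφ⟩ := induced K ψ hψ e
    have hr : IsPGroup p φ.range := hPp.of_surjective φ.rangeRestrict φ.rangeRestrict_surjective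
    obtain ⟨Q, hQ⟩ := hr.exists_le_sylow
    let E : Q ≃* S := Sylow.equiv Q S
    refine ⟨E.toMonoidHom.comp (φ.codRestrict (Q : Subgroup W) fun x => hQ ⟨x, rfl⟩), ?_⟩
    intro x y hxy
    apply hφ
    have h1 := E.injective hxy
    exact congrArg Subtype.val h1

end Pool.Agent.H300.JN
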